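import Pool.Agent.H544R2.Halt

/-!
# The halting problem is in polynomial time relative to the random strings

For some universal machine `U`, the halting problem, and every recursively enumerable set, is
decided by a deterministic polynomial-time oracle Turing machine with the set of the strings `x`
with `C_U(x) ≥ |x|` as its oracle.

Idea. A string `00w` gets a program that is shorter by one bit exactly when a strategy wants so;
programs of the reference machine get a prefix of 66 ones, hence spoil few strings of each length.
The strategy keeps, among the strings `00w`, a trie for the domain of the reference machine. A node
of depth `d` has a region of polynomially many (in `d`) strings of one length, in which the length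
and the first string of the regions of the two children are written in pieces, coded by Hadamard
codewords. If too many blocks of a region are spoiled, the node moves down to smaller strings; this
can happen at most once per length, so all pointers are finally right, and the length of the region
of a node of depth `d` is at most linear in `d`.
-/

namespace Pool.Agent.Results.MP_90f04a_lc.HaltInPRandom

open Pool.Agent.H544R2

theorem result : ∃ U : List Bool →. List Bool, IsUniversal U ∧
    HALT ∈ PRel (randomStrings U) ∧
    ∀ H : Set (List Bool), REPred (· ∈ H) → H ∈ PRel (randomStrings U) :=
  ⟨U, isUniversal_U, re_mem_PRel re_HALT, fun _ hH => re_mem_PRel hH⟩

end Pool.Agent.Results.MP_90f04a_lc.HaltInPRandom
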